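import Pool.Agent.Helper28.RDU.Proof

/-!
# Optimal RDU bounds

For commutative rings the smallest RDU bound is `8`, for von Neumann regular rings it is `4`, and
for rings of stable rank `1` it is `8`.
-/

set_option autoImplicit false

namespace Pool.Agent.Results.MP_2b3a02_al.OptimalRDU

open Pool.Agent.Helper28.RDU

universe u

/-- The optimal RDU bound of the class of commutative rings is `8`, that of the class of
von Neumann regular rings is `4`, and that of the class of rings of stable rank `1` is `8`. -/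
theorem result :
    IsLeast {m : ℕ | ∀ (R : Type u) [CommRing R] (n : ℕ), 3 ≤ n → IsRDUBoundGL n m R} 8 ∧
    IsLeast {m : ℕ | ∀ (R : Type u) [Ring R], (∀ a : R, ∃ x : R, a * x * a = a) →
      ∀ n : ℕ, 3 ≤ n → IsRDUBoundGL n m R} 4 ∧
    IsLeast {m : ℕ | ∀ (R : Type u) [Ring R], StableRankOne R →
      ∀ n : ℕ, 3 ≤ n → IsRDUBoundGL n m R} 8 := by
  refine ⟨⟨?_, ?_⟩, ⟨?_, ?_⟩, ⟨?_, ?_⟩⟩
  · intro R _ n hn
    exact upper_comm hn mul_comm
  · intro m hm
    by_contra hlt
    have h := hm (ULift.{u} R2) 3 le_rfl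
    exact not_bound_R2 ((h.of_equiv ULift.ringEquiv).mono (by omega))
  · intro R _ hR n hn
    exact upper_vnr hn hR
  · intro m hm
    by_contra hlt
    have h := hm (ULift.{u} (ZMod 5)) (by
      intro a
      by_cases ha : a.down = 0
      · exact ⟨0, by ext; simp [ha]⟩
      · refine ⟨ULift.up (a.down)⁻¹, ?_⟩
        ext
        simp [ha]) 3 le_rfl
    exact not_bound5 ((h.of_equiv ULift.ringEquiv).mono (by omega))
  · intro R _ hR n hn
    exact upper_sr hn hR
  · intro m hm
    by_contra hlt
    have h := hm (ULift.{u} R2) (stableRankOne_R2.of_equiv ULift.ringEquiv.symm) 3 le_rfl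
    exact not_bound_R2 ((h.of_equiv ULift.ringEquiv).mono (by omega))

end Pool.Agent.Results.MP_2b3a02_al.OptimalRDU
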